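import Pool.Agent.H20.SM.Targets
import Pool.Agent.H37.CV.All

/-!
Row CHT: sums over the relations, dyadic ranges.
-/

set_option autoImplicit false

open NumberField NumberField.InfinitePlace Complex Filter Topology MeasureTheory

namespace Pool.Agent.H64.SM

open Pool.Agent.H28.RC Pool.Agent.H25.HK Pool.Agent.H37.CV Pool.Agent.H20.SM

lemma cht_geom (r : ℝ) (h0 : 0 ≤ r) (h1 : r < 1) (T : Finset ℕ) :
    ∑ j ∈ T, r ^ j ≤ (1 - r)⁻¹ := by
  rw [← tsum_geometric_of_lt_one h0 h1]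
  exact (summable_geometric_of_lt_one h0 h1).sum_le_tsum T (fun j _ => pow_nonneg h0 j)

lemma cht_min (Y R ε : ℝ) (hY : 0 < Y) (hR : 0 < R) (hε : 0 < ε) (hε1 : ε ≤ 1 / 64) :
    min 1 ((Y / R) ^ 2) ≤ (Y / R) ^ (1 / 2 + ε) := by
  have hq : 0 < Y / R := div_pos hY hR
  rcases le_total (Y / R) 1 with h | h
  · refine (min_le_right _ _).trans ?_
    rw [← Real.rpow_natCast]
    exact Real.rpow_le_rpow_of_exponent_ge hq h (by push_cast; linarith)
  · exact (min_le_left _ _).trans (Real.one_le_rpow h (by linarith))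

/-- the bound for one range -/
lemma cht_one (C1 ε e L Y u D : ℝ) (j : ℕ) (hC : 0 ≤ C1) (hε : 0 < ε) (hε1 : ε ≤ 1 / 64)
    (he : e = ε / 8) (hL : 2 ≤ L) (hY : 1 ≤ Y) (hu0 : 0 ≤ u) (hu : u ≤ L ^ (1 / 16 : ℝ))
    (hD : 0 ≤ D) :
    C1 * (2 * (L * 2 ^ j)) ^ e * u * ((L * 2 ^ j) ^ (-(1 / 2) : ℝ) +
      (2 * (L * 2 ^ j)) ^ (1 / 2 : ℝ) / D) * min 1 ((Y / (L * 2 ^ j)) ^ 2) ≤
    2 * C1 * L ^ (-(1 / 4) : ℝ) * ((2 : ℝ) ^ (-(3 / 8) : ℝ)) ^ j +
      4 * C1 * (Y ^ (1 / 2 + ε) * u / D) * ((2 : ℝ) ^ (e - ε)) ^ j := by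
  set R : ℝ := L * 2 ^ j with hR
  have hp1 : (1 : ℝ) ≤ 2 ^ j := one_le_pow₀ (by norm_num)
  have hL0 : 0 < L := by linarith
  have hLR : L ≤ R := by rw [hR]; nlinarith
  have hR1 : 1 ≤ R := by linarith
  have hR0 : 0 < R := by linarith
  have hY0 : 0 < Y := by linarith
  have he0 : 0 < e := by rw [he]; linarith
  have he1 : e ≤ 1 / 512 := by rw [he]; linarith
  have hw0 : 0 ≤ min 1 ((Y / R) ^ 2) := le_min zero_le_one (by positivity)
  have hw1 : min 1 ((Y / R) ^ 2) ≤ 1 := min_le_left _ _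
  have hw2 := cht_min Y R ε hY0 hR0 hε hε1
  have h2e : (2 * R) ^ e ≤ 2 * R ^ e := by
    rw [Real.mul_rpow (by norm_num) hR0.le]
    refine mul_le_mul_of_nonneg_right ?_ (Real.rpow_nonneg hR0.le _)
    calc (2 : ℝ) ^ e ≤ 2 ^ (1 : ℝ) := Real.rpow_le_rpow_of_exponent_le (by norm_num) (by linarith)
      _ = 2 := Real.rpow_one _
  have h2h : (2 * R) ^ (1 / 2 : ℝ) ≤ 2 * R ^ (1 / 2 : ℝ) := by
    rw [Real.mul_rpow (by norm_num) hR0.le]
    refine mul_le_mul_of_nonneg_right ?_ (Real.rpow_nonneg hR0.le _)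
    calc (2 : ℝ) ^ (1 / 2 : ℝ) ≤ 2 ^ (1 : ℝ) :=
          Real.rpow_le_rpow_of_exponent_le (by norm_num) (by norm_num)
      _ = 2 := Real.rpow_one _
  have huR : u ≤ R ^ (1 / 16 : ℝ) :=
    hu.trans (Real.rpow_le_rpow hL0.le hLR (by norm_num))
  -- first part
  have hA : C1 * (2 * R) ^ e * u * R ^ (-(1 / 2) : ℝ) * min 1 ((Y / R) ^ 2) ≤
      2 * C1 * L ^ (-(1 / 4) : ℝ) * ((2 : ℝ) ^ (-(3 / 8) : ℝ)) ^ j := by
    calc C1 * (2 * R) ^ e * u * R ^ (-(1 / 2) : ℝ) * min 1 ((Y / R) ^ 2)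
        ≤ C1 * (2 * R ^ e) * R ^ (1 / 16 : ℝ) * R ^ (-(1 / 2) : ℝ) * 1 := by
          have g1 : 0 ≤ R ^ (-(1 / 2) : ℝ) := Real.rpow_nonneg hR0.le _
          have g2 : 0 ≤ R ^ e := Real.rpow_nonneg hR0.le _
          have g3 : 0 ≤ (2 * R) ^ e := Real.rpow_nonneg (by positivity) _
          have g4 : 0 ≤ R ^ (1 / 16 : ℝ) := Real.rpow_nonneg hR0.le _
          gcongr
      _ = 2 * C1 * R ^ (e + 1 / 16 + -(1 / 2)) := by
          rw [Real.rpow_add hR0, Real.rpow_add hR0]; ring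
      _ ≤ 2 * C1 * R ^ (-(3 / 8) : ℝ) := by
          refine mul_le_mul_of_nonneg_left ?_ (by positivity)
          exact Real.rpow_le_rpow_of_exponent_le hR1 (by linarith)
      _ = 2 * C1 * (L ^ (-(3 / 8) : ℝ) * ((2 : ℝ) ^ (-(3 / 8) : ℝ)) ^ j) := by
          rw [hR, Real.mul_rpow hL0.le (by positivity)]
          congr 2
          rw [← Real.rpow_natCast, ← Real.rpow_mul (by norm_num), mul_comm (j : ℝ),
            Real.rpow_mul (by norm_num), Real.rpow_natCast]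
      _ ≤ 2 * C1 * (L ^ (-(1 / 4) : ℝ) * ((2 : ℝ) ^ (-(3 / 8) : ℝ)) ^ j) := by
          refine mul_le_mul_of_nonneg_left ?_ (by positivity)
          refine mul_le_mul_of_nonneg_right ?_ (by positivity)
          exact Real.rpow_le_rpow_of_exponent_le (by linarith) (by norm_num)
      _ = 2 * C1 * L ^ (-(1 / 4) : ℝ) * ((2 : ℝ) ^ (-(3 / 8) : ℝ)) ^ j := by ring
  -- second part
  have hB : C1 * (2 * R) ^ e * u * ((2 * R) ^ (1 / 2 : ℝ) / D) * min 1 ((Y / R) ^ 2) ≤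
      4 * C1 * (Y ^ (1 / 2 + ε) * u / D) * ((2 : ℝ) ^ (e - ε)) ^ j := by
    have huD : 0 ≤ u / D := div_nonneg hu0 hD
    calc C1 * (2 * R) ^ e * u * ((2 * R) ^ (1 / 2 : ℝ) / D) * min 1 ((Y / R) ^ 2)
        = C1 * (u / D) * ((2 * R) ^ e * (2 * R) ^ (1 / 2 : ℝ) * min 1 ((Y / R) ^ 2)) := by ring
      _ ≤ C1 * (u / D) * ((2 * R ^ e) * (2 * R ^ (1 / 2 : ℝ)) * (Y / R) ^ (1 / 2 + ε)) := by
          refine mul_le_mul_of_nonneg_left ?_ (by positivity)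
          have g2 : 0 ≤ R ^ e := Real.rpow_nonneg hR0.le _
          have g3 : 0 ≤ (2 * R) ^ e := Real.rpow_nonneg (by positivity) _
          have g4 : 0 ≤ (2 * R) ^ (1 / 2 : ℝ) := Real.rpow_nonneg (by positivity) _
          gcongr
      _ = 4 * C1 * (u / D) * (Y ^ (1 / 2 + ε) * R ^ (e - ε)) := by
          rw [Real.div_rpow hY0.le hR0.le, show e - ε = e + 1 / 2 - (1 / 2 + ε) from by ring,
            Real.rpow_sub hR0, Real.rpow_add hR0, Real.rpow_add hR0]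
          ring
      _ ≤ 4 * C1 * (u / D) * (Y ^ (1 / 2 + ε) * ((2 : ℝ) ^ (e - ε)) ^ j) := by
          refine mul_le_mul_of_nonneg_left ?_ (by positivity)
          refine mul_le_mul_of_nonneg_left ?_ (by positivity)
          have e1 : ((2 : ℝ) ^ (e - ε)) ^ j = ((2 : ℝ) ^ j) ^ (e - ε) := by
            rw [← Real.rpow_natCast, ← Real.rpow_mul (by norm_num), mul_comm (e - ε),
              Real.rpow_mul (by norm_num), Real.rpow_natCast]
          rw [e1, hR, Real.mul_rpow hL0.le (by positivity)]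
          have e2 : L ^ (e - ε) ≤ 1 := Real.rpow_le_one_of_one_le_of_nonpos (by linarith)
            (by rw [he]; linarith)
          have e3 : 0 ≤ ((2 : ℝ) ^ j) ^ (e - ε) := by positivity
          nlinarith
      _ = 4 * C1 * (Y ^ (1 / 2 + ε) * u / D) * ((2 : ℝ) ^ (e - ε)) ^ j := by ring
  calc C1 * (2 * R) ^ e * u * (R ^ (-(1 / 2) : ℝ) + (2 * R) ^ (1 / 2 : ℝ) / D) *
        min 1 ((Y / R) ^ 2)
      = C1 * (2 * R) ^ e * u * R ^ (-(1 / 2) : ℝ) * min 1 ((Y / R) ^ 2) +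
        C1 * (2 * R) ^ e * u * ((2 * R) ^ (1 / 2 : ℝ) / D) * min 1 ((Y / R) ^ 2) := by ring
    _ ≤ _ := add_le_add hA hB

theorem pf_CHT : T_CHT := by
  intro K _ _ ε hε hε1
  obtain ⟨C0, hC0⟩ := a_PS K (ε / 8) (by linarith)
  set C1 : ℝ := max C0 1 with hC1
  have hC1p : 0 < C1 := lt_of_lt_of_le one_pos (le_max_right _ _)
  set r1 : ℝ := (2 : ℝ) ^ (-(3 / 8) : ℝ) with hr1
  set r2 : ℝ := (2 : ℝ) ^ (ε / 8 - ε) with hr2
  have h1a : 0 ≤ r1 := by positivity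
  have h1b : r1 < 1 := Real.rpow_lt_one_of_one_lt_of_neg (by norm_num) (by norm_num)
  have h2a : 0 ≤ r2 := by positivity
  have h2b : r2 < 1 := Real.rpow_lt_one_of_one_lt_of_neg (by norm_num) (by linarith)
  have k1 : 0 < (1 - r1)⁻¹ := inv_pos.2 (by linarith)
  have k2 : 0 < (1 - r2)⁻¹ := inv_pos.2 (by linarith)
  refine ⟨2 * C1 * (1 - r1)⁻¹ + 4 * C1 * (1 - r2)⁻¹, by positivity, ?_⟩
  intro m d L Y X hm hmd hL hY huc hX
  have hL0 : 0 < L := by linarith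
  have hD : 0 ≤ nm d := Nat.cast_nonneg _
  have hu0 : (0 : ℝ) ≤ uc d := Nat.cast_nonneg _
  have hex : ∀ p : Ideal (𝓞 K) × Ideal (𝓞 K), ∃ n : ℕ, p ∈ X →
      L * 2 ^ n ≤ nm p.1 * nm p.2 ∧ nm p.1 * nm p.2 ≤ 2 * (L * 2 ^ n) := by
    intro p
    by_cases hp : p ∈ X
    · obtain ⟨n, h1, h2⟩ := exists_nat_pow_near (x := nm p.1 * nm p.2 / L) (y := (2 : ℝ))
        ((one_le_div hL0).2 (hX p hp).2) (by norm_num)
      refine ⟨n, fun _ => ⟨?_, ?_⟩⟩
      · rw [le_div_iff₀ hL0] at h1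
        linarith
      · rw [div_lt_iff₀ hL0, pow_succ] at h2
        linarith
    · exact ⟨0, fun h => absurd h hp⟩
  choose jf hjf using hex
  classical
  rw [← Finset.sum_fiberwise_of_maps_to (t := X.image jf) (g := jf)
    (fun p hp => Finset.mem_image_of_mem jf hp)]
  have hj : ∀ j ∈ X.image jf, ∑ p ∈ X.filter (fun p => jf p = j),
      wt p * min 1 ((Y / (nm p.1 * nm p.2)) ^ 2) ≤
      2 * C1 * L ^ (-(1 / 4) : ℝ) * r1 ^ j + 4 * C1 * (Y ^ (1 / 2 + ε) * uc d / nm d) * r2 ^ j := by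
    intro j _
    have hRpos : 0 < L * 2 ^ j := by positivity
    have hLR : L ≤ L * 2 ^ j := by
      have : (1 : ℝ) ≤ 2 ^ j := one_le_pow₀ (by norm_num)
      nlinarith
    have hmem : ∀ p ∈ X.filter (fun p => jf p = j), p ∈ CP m d ∧
        L * 2 ^ j ≤ nm p.1 * nm p.2 ∧ nm p.1 * nm p.2 ≤ 2 * (L * 2 ^ j) := by
      intro p hp
      obtain ⟨h1, h2⟩ := Finset.mem_filter.1 hp
      obtain ⟨h3, h4⟩ := hjf p h1
      rw [h2] at h3 h4
      exact ⟨(hX p h1).1, h3, h4⟩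
    have hps := hC0 m d (L * 2 ^ j) (2 * (L * 2 ^ j)) (X.filter (fun p => jf p = j)) hm hmd
      (by linarith) (by linarith) hmem
    have hwt : ∀ p : Ideal (𝓞 K) × Ideal (𝓞 K), 0 ≤ wt p := by
      intro p
      unfold wt
      have : 0 ≤ nm p.1 * nm p.2 := mul_nonneg (Nat.cast_nonneg _) (Nat.cast_nonneg _)
      positivity
    calc ∑ p ∈ X.filter (fun p => jf p = j), wt p * min 1 ((Y / (nm p.1 * nm p.2)) ^ 2)
        ≤ ∑ p ∈ X.filter (fun p => jf p = j), wt p * min 1 ((Y / (L * 2 ^ j)) ^ 2) := by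
          refine Finset.sum_le_sum (fun p hp => ?_)
          refine mul_le_mul_of_nonneg_left ?_ (hwt p)
          refine min_le_min le_rfl ?_
          obtain ⟨-, h3, -⟩ := hmem p hp
          have h5 : Y / (nm p.1 * nm p.2) ≤ Y / (L * 2 ^ j) :=
            div_le_div_of_nonneg_left (by linarith) hRpos h3
          exact pow_le_pow_left₀ (div_nonneg (by linarith) (by linarith)) h5 2
      _ = (∑ p ∈ X.filter (fun p => jf p = j), wt p) * min 1 ((Y / (L * 2 ^ j)) ^ 2) := by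
          rw [Finset.sum_mul]
      _ ≤ (C1 * (2 * (L * 2 ^ j)) ^ (ε / 8) * uc d * ((L * 2 ^ j) ^ (-(1 / 2) : ℝ) +
            (2 * (L * 2 ^ j)) ^ (1 / 2 : ℝ) / nm d)) * min 1 ((Y / (L * 2 ^ j)) ^ 2) := by
          refine mul_le_mul_of_nonneg_right ?_ (le_min zero_le_one (by positivity))
          refine hps.trans ?_
          have g1 : 0 ≤ (L * 2 ^ j) ^ (-(1 / 2) : ℝ) + (2 * (L * 2 ^ j)) ^ (1 / 2 : ℝ) / nm d := by
            positivity
          refine mul_le_mul_of_nonneg_right ?_ g1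
          refine mul_le_mul_of_nonneg_right ?_ hu0
          exact mul_le_mul_of_nonneg_right (le_max_left _ _) (by positivity)
      _ ≤ _ := cht_one C1 ε (ε / 8) L Y (uc d) (nm d) j hC1p.le hε hε1 rfl hL hY hu0 huc hD
  refine (Finset.sum_le_sum hj).trans ?_
  rw [Finset.sum_add_distrib, ← Finset.mul_sum, ← Finset.mul_sum]
  have a1 := cht_geom r1 h1a h1b (X.image jf)
  have a2 := cht_geom r2 h2a h2b (X.image jf)
  have b1 : 0 ≤ L ^ (-(1 / 4) : ℝ) := by positivity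
  have b2 : 0 ≤ Y ^ (1 / 2 + ε) * uc d / nm d := by
    have : 0 ≤ Y := by linarith
    positivity
  calc 2 * C1 * L ^ (-(1 / 4) : ℝ) * ∑ j ∈ X.image jf, r1 ^ j +
        4 * C1 * (Y ^ (1 / 2 + ε) * uc d / nm d) * ∑ j ∈ X.image jf, r2 ^ j
      ≤ 2 * C1 * L ^ (-(1 / 4) : ℝ) * (1 - r1)⁻¹ +
        4 * C1 * (Y ^ (1 / 2 + ε) * uc d / nm d) * (1 - r2)⁻¹ :=
        add_le_add (mul_le_mul_of_nonneg_left a1 (by positivity))
          (mul_le_mul_of_nonneg_left a2 (by positivity))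
    _ ≤ (2 * C1 * (1 - r1)⁻¹ + 4 * C1 * (1 - r2)⁻¹) *
        (L ^ (-(1 / 4) : ℝ) + Y ^ (1 / 2 + ε) * uc d / nm d) := by
        have c1 : 0 ≤ C1 * (1 - r1)⁻¹ * (Y ^ (1 / 2 + ε) * uc d / nm d) := by positivity
        have c2 : 0 ≤ C1 * (1 - r2)⁻¹ * L ^ (-(1 / 4) : ℝ) := by positivity
        nlinarith

end Pool.Agent.H64.SM
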