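import Pool.Agent.H20.SM.TW
import Pool.Agent.H25.SM.PNC
import Pool.Agent.H37.CV.All

/-!
# A cofinal family of Galois extensions: the first moment, moved to the right

The model is `Pool/Agent/H37/CV/FM.lean`.
-/

set_option autoImplicit false

open NumberField NumberField.InfinitePlace Complex Filter Topology MeasureTheory

namespace Pool.Agent.H64.SM

open Pool.Agent.H28.RC Pool.Agent.H25.HK Pool.Agent.H37.CV Pool.Agent.H65.CRZ Pool.Agent.H65.CRG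
  Pool.Agent.H20.SM

section

variable {K : Type} [Field K] [NumberField K]

theorem fmw_nm (q : ℕ) : nm (qi K q) = (q : ℝ) ^ Module.finrank ℚ K := by
  rw [nm, qi, Ideal.absNorm_span_natCast, RingOfIntegers.rank]
  push_cast
  rfl

theorem fmw_cg {M γ u : ℝ} (hM : 1 ≤ M) (hγ : 0 ≤ γ) (S : Finset (PrI K)) (hS : S ⊆ PM K M) :
    ‖cg K M γ u S‖ ≤ 1 := by
  rw [cg, norm_mul]
  have h1 : ‖(xw K M S : ℂ)‖ ≤ 1 := by
    rw [Complex.norm_real, Real.norm_eq_abs]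
    exact (a_CX (PrI K) np (PM K M) M two_le_np hM).2.2 S hS
  have h0 := nS_ge_one S
  have h2 : ‖((nS np S : ℝ) : ℂ) ^ (-(1 / 2 + γ + u * I) : ℂ)‖ ≤ 1 := by
    rw [Complex.norm_cpow_eq_rpow_re_of_pos (by linarith)]
    refine Real.rpow_le_one_of_one_le_of_nonpos h0 ?_
    simp
    linarith
  calc _ ≤ (1 : ℝ) * 1 := mul_le_mul h1 h2 (norm_nonneg _) zero_le_one
    _ = 1 := one_mul 1

theorem fmw_pol {M γ u : ℝ} (hM : 1 ≤ M) (hγ : 0 ≤ γ) (χ : RCC K) :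
    ‖pol M (cg K M γ u) χ.ψ‖ ≤ M * GS np (PM K M) M := by
  refine le_trans ?_ (card_DM_le M)
  rw [pol]
  refine (norm_sum_le _ _).trans ?_
  rw [Finset.card_eq_sum_ones, Nat.cast_sum]
  refine Finset.sum_le_sum fun S hS => ?_
  rw [norm_mul, Nat.cast_one]
  have hSA : S ⊆ PM K M := by
    rw [DM, DS, Finset.mem_filter, Finset.mem_powerset] at hS
    exact hS.1
  have h1 := fmw_cg (u := u) hM hγ S hSA
  have h2 := norm_RCC_le χ (idS S)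
  calc _ ≤ (1 : ℝ) * 1 := mul_le_mul h1 h2 (norm_nonneg _) zero_le_one
    _ = 1 := one_mul 1

theorem fmw_fib (q n : ℕ) (T : Finset (Ideal (𝓞 K)))
    (hT : ∀ d ∈ T, d ≠ qi K q → (Pd q d).Nonempty)
    (hR : ∀ R : Finset ℕ, (T.filter fun d => Pd q d = R).card ≤ 2 ^ (n * R.card))
    (g : Finset ℕ → ℝ) (hg : ∀ R, 0 ≤ g R) [DecidableEq (Ideal (𝓞 K))] :
    ∑ d ∈ T.erase (qi K q), g (Pd q d) ≤
      ∑ R ∈ q.primeFactors.powerset.erase ∅, (2 : ℝ) ^ (n * R.card) * g R := by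
  have hPs : ∀ d : Ideal (𝓞 K), Pd q d ⊆ q.primeFactors := fun d => by
    classical
    unfold Pd
    exact Finset.filter_subset _ _
  have h6 : ∀ d ∈ T.erase (qi K q), Pd q d ∈ q.primeFactors.powerset.erase ∅ := by
    intro d hd
    obtain ⟨hne, hdT⟩ := Finset.mem_erase.1 hd
    exact Finset.mem_erase.2 ⟨(hT d hdT hne).ne_empty, Finset.mem_powerset.2 (hPs d)⟩
  rw [← Finset.sum_fiberwise_of_maps_to h6]
  refine Finset.sum_le_sum fun R hR' => ?_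
  have e1 : ∀ d ∈ (T.erase (qi K q)).filter (fun d => Pd q d = R), g (Pd q d) = g R := by
    intro d hd
    rw [(Finset.mem_filter.1 hd).2]
  rw [Finset.sum_congr rfl e1, Finset.sum_const, nsmul_eq_mul]
  have e2 : (((T.erase (qi K q)).filter (fun d => Pd q d = R)).card : ℝ) ≤
      (2 : ℝ) ^ (n * R.card) := by
    have e3 : ((T.erase (qi K q)).filter (fun d => Pd q d = R)).card ≤ 2 ^ (n * R.card) :=
      (Finset.card_le_card (Finset.filter_subset_filter _ (Finset.erase_subset _ _))).trans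
        (hR R)
    exact_mod_cast e3
  exact mul_le_mul_of_nonneg_right e2 (hg R)

end

/-- the sum of the powers of two -/
theorem fmw_two (n : ℕ) (P : Finset ℕ) :
    ∑ R ∈ P.powerset.erase ∅, (2 : ℝ) ^ (n * R.card) ≤ (1 + 2 ^ n) ^ P.card := by
  have h1 := Finset.sum_pow_mul_eq_add_pow ((2 : ℝ) ^ n) 1 P
  rw [add_comm (1 : ℝ), ← h1]
  refine (Finset.sum_le_sum_of_subset_of_nonneg (Finset.erase_subset _ _)
    fun R _ _ => by positivity).trans (le_of_eq ?_)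
  refine Finset.sum_congr rfl fun R _ => ?_
  rw [one_pow, mul_one, ← pow_mul]

/-- `q` is large -/
theorem fmw_q {q : ℕ} {x : ℝ} (hq : Squarefree q)
    (hl : ∀ p ∈ q.primeFactors, Real.sqrt x ≤ (p : ℝ)) :
    Real.sqrt x ^ q.primeFactors.card ≤ (q : ℝ) := by
  have h1 : ((∏ p ∈ q.primeFactors, p : ℕ) : ℝ) = q := by
    rw [Nat.prod_primeFactors_of_squarefree hq]
  rw [← h1, Nat.cast_prod, ← Finset.prod_const]
  exact Finset.prod_le_prod (fun _ _ => Real.sqrt_nonneg x) hl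

/-- the number of the divisors does not matter -/
theorem fmw_num (n k : ℕ) (x N : ℝ) (hx : 1 ≤ x) (hk : 1 ≤ k) (hN : Real.sqrt x ^ k ≤ N)
    (h : (1 + 2 ^ n) * x ^ (-(1 / 64) : ℝ) ≤ 1) :
    (1 + 2 ^ n) ^ k * N ^ (-(1 / 32) : ℝ) ≤ (1 + 2 ^ n) * x ^ (-(1 / 64) : ℝ) := by
  have hx0 : 0 < x := by linarith
  have hs : 0 < Real.sqrt x := Real.sqrt_pos.2 hx0
  have h1 : N ^ (-(1 / 32) : ℝ) ≤ (x ^ (-(1 / 64) : ℝ)) ^ k := by
    refine (Real.rpow_le_rpow_of_nonpos (pow_pos hs k) hN (by norm_num)).trans (le_of_eq ?_)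
    rw [← Real.rpow_natCast, ← Real.rpow_natCast, Real.sqrt_eq_rpow, ← Real.rpow_mul hx0.le,
      ← Real.rpow_mul hx0.le, ← Real.rpow_mul hx0.le]
    congr 1
    ring
  calc (1 + 2 ^ n) ^ k * N ^ (-(1 / 32) : ℝ) ≤
        (1 + 2 ^ n) ^ k * (x ^ (-(1 / 64) : ℝ)) ^ k := by gcongr
    _ = ((1 + 2 ^ n) * x ^ (-(1 / 64) : ℝ)) ^ k := by rw [mul_pow]
    _ ≤ ((1 + 2 ^ n) * x ^ (-(1 / 64) : ℝ)) ^ 1 :=
        pow_le_pow_of_le_one (by positivity) h hk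
    _ = _ := pow_one _

/-- one character -/
theorem fmw_one {F : Type} [Field F] [NumberField F] {C₂ : ℝ} (hC2 : ∀ M : ℝ, 1 ≤ M →
    GS np (PM F M) M ≤ C₂ * (1 + Real.log M)) {M γ u Q : ℝ} (hM : 1 ≤ M) (hMQ : M ≤ Q ^ (1 / 2 : ℝ))
    (hQ : 1 ≤ Q) (hγ : 0 ≤ γ) (χ : RCC F) : ‖pol M (cg F M γ u) χ.ψ‖ ≤ 2 * |C₂| * Q := by
  have hQ0 : 0 < Q := by linarith
  have hl : Real.log M ≤ M := by
    have := Real.log_le_sub_one_of_pos (by linarith : 0 < M)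
    linarith
  have hlog : 1 + Real.log M ≤ 2 * Q ^ (1 / 2 : ℝ) := by
    linarith
  have hlog0 : 0 ≤ 1 + Real.log M := by
    have := Real.log_nonneg hM
    linarith
  have hG : GS np (PM F M) M ≤ |C₂| * (2 * Q ^ (1 / 2 : ℝ)) :=
    (hC2 M hM).trans (mul_le_mul (le_abs_self _) hlog hlog0 (abs_nonneg _))
  have hG0 : 0 ≤ GS np (PM F M) M := by
    rw [GS]
    exact Finset.sum_nonneg fun S _ => (inv_pos.2 (fS_pos S)).le
  refine (fmw_pol hM hγ χ).trans ?_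
  calc M * GS np (PM F M) M ≤ Q ^ (1 / 2 : ℝ) * (|C₂| * (2 * Q ^ (1 / 2 : ℝ))) :=
        mul_le_mul hMQ hG hG0 (by positivity)
    _ = 2 * |C₂| * (Q ^ (1 / 2 : ℝ) * Q ^ (1 / 2 : ℝ)) := by ring
    _ = 2 * |C₂| * Q := by rw [← Real.rpow_add hQ0]; norm_num

theorem fmw_ev (η C : ℝ) (hη : 0 < η) {a : ℝ} (ha : 0 < a) :
    ∃ x₀ : ℝ, ∀ x : ℝ, x₀ ≤ x → C * x ^ (-a) ≤ η := by
  have h1 : Tendsto (fun x : ℝ => C * x ^ (-a)) atTop (𝓝 0) := by
    have := (tendsto_rpow_neg_atTop ha).const_mul C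
    simpa using this
  obtain ⟨x₀, h2⟩ := eventually_atTop.1 (h1.eventually (gt_mem_nhds hη))
  exact ⟨x₀, fun x hx => (h2 x hx).le⟩

theorem pf_FMw (hIE : T_IEq) (hNCR : T_NCR) (_hPAR : T_PAR) (hSND : T_SND) (hAF1 : T_AF1w)
    (hFMO : T_FMOw) (hF1 : T_F1w) : T_FMw := by
  classical
  have hPNC := Pool.Agent.H25.SM.pf_PNC hIE hNCR hSND
  intro F _ _ _ _ A ε₁ η T hA hε0 hε1 hη hT
  obtain ⟨n, hn⟩ : ∃ n : ℕ, n = Module.finrank ℚ F := ⟨_, rfl⟩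
  have hn0 : 1 ≤ n := by rw [hn]; exact Module.finrank_pos
  obtain ⟨κ, hκ⟩ : ∃ κ : ℝ, κ = η / 4 := ⟨_, rfl⟩
  have hκ0 : 0 < κ := by rw [hκ]; linarith
  obtain ⟨C₁, hC1⟩ := hAF1 F 16 T (by norm_num) hT
  obtain ⟨C₂, -, hC2, -⟩ := a_GU F
  obtain ⟨x₁, hF1⟩ := hF1 F A ε₁ κ hA hε0 hε1 hκ0
  obtain ⟨x₂, hPNC⟩ := hPNC F A 1 one_pos
  obtain ⟨x₃, hSND⟩ := hSND n A
  obtain ⟨C, E, -, -, hNCR⟩ := hNCR F
  obtain ⟨x₄, hNCR⟩ := hNCR A
  obtain ⟨y₁, hy₁⟩ := fmw_ev κ (2 * (|C₁| * (2 * |C₂|))) hκ0 (a := 1 / 2) (by norm_num)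
  obtain ⟨y₂, hy₂⟩ := fmw_ev κ 1 hκ0 (a := 1 / 8) (by norm_num)
  obtain ⟨y₃, hy₃⟩ := fmw_ev (min κ 1) (1 + 2 ^ n) (lt_min hκ0 one_pos) (a := 1 / 64)
    (by norm_num)
  refine ⟨max (max (max x₁ x₂) (max x₃ x₄)) (max (max y₁ y₂) (max y₃ 16)), ?_⟩
  intro x q hx hSp γ t hγ hγ8 ht
  have hxl := (le_max_left _ _).trans hx
  have hxr := (le_max_right _ _).trans hx
  have hx1 : x₁ ≤ x := ((le_max_left _ _).trans (le_max_left _ _)).trans hxl
  have hx2 : x₂ ≤ x := ((le_max_right _ _).trans (le_max_left _ _)).trans hxl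
  have hx3 : x₃ ≤ x := ((le_max_left _ _).trans (le_max_right _ _)).trans hxl
  have hx4 : x₄ ≤ x := ((le_max_right _ _).trans (le_max_right _ _)).trans hxl
  have hz1 : y₁ ≤ x := ((le_max_left _ _).trans (le_max_left _ _)).trans hxr
  have hz2 : y₂ ≤ x := ((le_max_right _ _).trans (le_max_left _ _)).trans hxr
  have hz3 : y₃ ≤ x := ((le_max_left _ _).trans (le_max_right _ _)).trans hxr
  have hx16 : 16 ≤ x := ((le_max_right _ _).trans (le_max_right _ _)).trans hxr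
  have hx0 : 0 < x := by linarith
  -- the number of the primes
  have hk1 : 1 ≤ q.primeFactors.card := by
    have h1 : 0 < Real.log x := Real.log_pos (by linarith)
    have h2 : (0 : ℝ) < (q.primeFactors.card : ℝ) := (pow_pos h1 A).trans_le hSp.lo
    have h3 : 0 < q.primeFactors.card := by exact_mod_cast h2
    exact h3
  have hqx := fmw_q hSp.sq.1 hSp.low
  have hs4 : 4 ≤ Real.sqrt x := by
    rw [show (4 : ℝ) = Real.sqrt (4 ^ 2) by rw [Real.sqrt_sq (by norm_num)]]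
    exact Real.sqrt_le_sqrt (by linarith)
  have hsq : Real.sqrt x ≤ q := by
    refine le_trans ?_ hqx
    exact le_self_pow₀ (by linarith) (by omega)
  have hq1 : (1 : ℝ) ≤ q := by linarith
  have hnm : nm (qi F q) = (q : ℝ) ^ n := by rw [hn]; exact fmw_nm q
  have hqn : (q : ℝ) ≤ (q : ℝ) ^ n := le_self_pow₀ hq1 (by omega)
  obtain ⟨Q, hQ⟩ : ∃ Q : ℝ, Q = cnd F (qi F q) := ⟨_, rfl⟩
  have hQq : (q : ℝ) ^ n ≤ Q := by rw [hQ, hn]; exact pow_le_cnd q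
  have hQ1 : 1 ≤ Q := by linarith
  have hQ0 : 0 < Q := by linarith
  have hQs : Real.sqrt x ≤ Q := by linarith
  obtain ⟨M, hM⟩ : ∃ M : ℝ, M = Mo F ε₁ q := ⟨_, rfl⟩
  have hM1 : 1 ≤ M := by
    rw [hM, Mo, hnm]
    exact Real.one_le_rpow (by linarith) (by linarith)
  have hMQ : M ≤ Q ^ (1 / 2 : ℝ) := by
    rw [hM, Mo, hnm]
    calc ((q : ℝ) ^ n) ^ (1 / 2 - ε₁) ≤ ((q : ℝ) ^ n) ^ (1 / 2 : ℝ) :=
          Real.rpow_le_rpow_of_exponent_le (by linarith) (by linarith)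
      _ ≤ Q ^ (1 / 2 : ℝ) := Real.rpow_le_rpow (by positivity) hQq (by norm_num)
  obtain ⟨X, hX⟩ : ∃ X : ℝ, X = Xr F q := ⟨_, rfl⟩
  have hX0 : 0 < X := by rw [hX, Xr, ← hQ]; exact Real.rpow_pos_of_pos hQ0 _
  have hQX : (Q / X) ^ 16 = Q ^ (-2 : ℝ) := by
    have h5 : Q / X = Q ^ (-(1 / 8) : ℝ) := by
      have h6 : Q ^ (-(1 / 8) : ℝ) = Q ^ ((1 : ℝ) - 9 / 8) := by norm_num
      rw [h6, Real.rpow_sub hQ0, Real.rpow_one, hX, Xr, ← hQ]
    rw [h5, ← Real.rpow_natCast, ← Real.rpow_mul hQ0.le]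
    norm_num
  have htop : qi F q ≠ ⊤ := by
    intro h
    have h1 : nm (qi F q) = 1 := by rw [h, nm, Ideal.absNorm_top, Nat.cast_one]
    rw [hnm] at h1
    linarith
  have hbot : qi F q ≠ ⊥ := by
    intro h
    have h1 : nm (qi F q) = 0 := by rw [h, nm, Ideal.absNorm_bot, Nat.cast_zero]
    rw [hnm] at h1
    linarith
  obtain ⟨hfin, T', σ, hqT, hσq, hT', hR, hsum⟩ := hIE F q hSp.sq
  obtain ⟨N, hN⟩ : ∃ N : ℝ, N = (nc (qi F q) (qi F q) : ℝ) := ⟨_, rfl⟩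
  have hNpos : 0 < N := by rw [hN]; exact_mod_cast (hNCR x q hx4 hSp).1
  have hcard : ((Pr F (qi F q)).ncard : ℝ) ≤ 2 * N := by
    have := (hPNC x q hx2 hSp).2
    rw [← hN] at this
    linarith
  obtain ⟨hL1, hL2⟩ := hF1 x q hx1 hSp γ t hγ
  obtain ⟨L, hL⟩ : ∃ L : Ideal (𝓞 F) → ℂ, L = fun d =>
    ∑' m : {m : Ideal (𝓞 F) // (m, ⊤) ∈ CP (qi F q) d},
      lam (Xr F q) (Mo F ε₁ q) m.1 * ((nm m.1 : ℝ) : ℂ) ^ (-(1 / 2 + γ + t * I)) := ⟨_, rfl⟩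
  have hL1' : ‖L (qi F q) - 1‖ ≤ κ := by rw [hL]; exact hL1
  have hL2' : ∀ d : Ideal (𝓞 F), qi F q ≤ d → d ≠ qi F q → (nc (qi F q) d : ℝ) * ‖L d‖ ≤
      N * (x ^ (1 / 8 : ℝ) * pd q d ^ (-(3 / 4) : ℝ) + nm (qi F q) ^ (-(1 / 32) : ℝ)) := by
    intro d h1 h2
    rw [hL, hN]
    exact hL2 d h1 h2
  -- the main part
  have hmain : (∑ᶠ χ ∈ Pr F (qi F q), A1w X (1 / 2 + γ + t * I) χ.ψ *
      pol M (cg F M γ t) χ.ψ) = ∑ d ∈ T', (σ d : ℂ) * (nc (qi F q) d * L d) := by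
    rw [hsum (fun ψ => A1w X (1 / 2 + γ + t * I) ψ * pol M (cg F M γ t) ψ)]
    refine Finset.sum_congr rfl fun d hd => ?_
    rw [(hFMO F (qi F q) d X M γ t hbot (hT' d hd).1 hX0 hM1 hγ).2, hL, hX, hM]
  have hdiff : ‖(∑ᶠ χ ∈ Pr F (qi F q), Zx χ (1 / 2 + γ + t * I) * pol M (cg F M γ t) χ.ψ) -
      ∑ᶠ χ ∈ Pr F (qi F q), A1w X (1 / 2 + γ + t * I) χ.ψ * pol M (cg F M γ t) χ.ψ‖ ≤
        κ * N := by
    rw [finsum_mem_eq_finite_toFinset_sum _ hfin, finsum_mem_eq_finite_toFinset_sum _ hfin,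
      ← Finset.sum_sub_distrib]
    have h2 : ∀ χ ∈ hfin.toFinset, ‖Zx χ (1 / 2 + γ + t * I) * pol M (cg F M γ t) χ.ψ -
        A1w X (1 / 2 + γ + t * I) χ.ψ * pol M (cg F M γ t) χ.ψ‖ ≤
        (|C₁| * (2 * |C₂|)) * x ^ (-(1 / 2) : ℝ) := by
      intro χ hχ
      have hχ' : χ.f = qi F q := (Set.Finite.mem_toFinset hfin).1 hχ
      have hf : χ.f ≠ ⊤ := by rw [hχ']; exact htop
      have hZ : IsEnt χ (Zx χ) := by
        obtain ⟨Z, Λ, ε', hZ, -⟩ := a_EN F χ hf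
        have h1 : ∃ Z, IsEnt χ Z := ⟨Z, hZ⟩
        rw [Zx, dif_pos h1]
        exact h1.choose_spec
      have h3 := hC1 χ hf (Zx χ) hZ X γ t hX0 hγ hγ8 ht
      rw [hχ', ← hQ, hQX] at h3
      rw [← sub_mul, norm_mul]
      have h5 := fmw_one hC2 hM1 hMQ hQ1 hγ χ (u := t)
      calc _ ≤ (|C₁| * Q ^ (-2 : ℝ)) * (2 * |C₂| * Q) := by
            refine mul_le_mul (h3.trans ?_) h5 (norm_nonneg _) (by positivity)
            exact mul_le_mul (le_abs_self _) le_rfl (by positivity) (abs_nonneg _)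
        _ = (|C₁| * (2 * |C₂|)) * (Q ^ (-2 : ℝ) * Q ^ (1 : ℝ)) := by
            rw [Real.rpow_one]; ring
        _ = (|C₁| * (2 * |C₂|)) * Q ^ (-1 : ℝ) := by
            rw [← Real.rpow_add hQ0]
            norm_num
        _ ≤ (|C₁| * (2 * |C₂|)) * x ^ (-(1 / 2) : ℝ) := by
            refine mul_le_mul_of_nonneg_left ?_ (by positivity)
            refine (Real.rpow_le_rpow_of_nonpos (by linarith) hQs (by norm_num)).trans
              (le_of_eq ?_)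
            rw [Real.sqrt_eq_rpow, ← Real.rpow_mul hx0.le]
            norm_num
    refine (norm_sum_le _ _).trans ((Finset.sum_le_sum h2).trans ?_)
    rw [Finset.sum_const, nsmul_eq_mul, ← Set.ncard_eq_toFinset_card _ hfin]
    calc ((Pr F (qi F q)).ncard : ℝ) * ((|C₁| * (2 * |C₂|)) * x ^ (-(1 / 2) : ℝ))
        ≤ (2 * N) * ((|C₁| * (2 * |C₂|)) * x ^ (-(1 / 2) : ℝ)) := by gcongr
      _ = (2 * (|C₁| * (2 * |C₂|)) * x ^ (-(1 / 2) : ℝ)) * N := by ring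
      _ ≤ κ * N := mul_le_mul_of_nonneg_right (hy₁ x hz1) hNpos.le
  -- the proper divisors
  have hB : ‖(∑ d ∈ T', (σ d : ℂ) * (nc (qi F q) d * L d)) - N‖ ≤
      κ * N + N * (x ^ (-(1 / 8) : ℝ) + (1 + 2 ^ n) * x ^ (-(1 / 64) : ℝ)) := by
    rw [← Finset.add_sum_erase T' _ hqT, hσq, ← Complex.ofReal_natCast, ← hN]
    have h2 : ((1 : ℤ) : ℂ) * ((N : ℂ) * L (qi F q)) +
        ∑ d ∈ T'.erase (qi F q), (σ d : ℂ) * (nc (qi F q) d * L d) - N =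
        (N : ℂ) * (L (qi F q) - 1) +
          ∑ d ∈ T'.erase (qi F q), (σ d : ℂ) * (nc (qi F q) d * L d) := by
      push_cast
      ring
    rw [h2]
    refine (norm_add_le _ _).trans (add_le_add ?_ ?_)
    · rw [norm_mul, Complex.norm_real, Real.norm_eq_abs, abs_of_pos hNpos, mul_comm]
      exact mul_le_mul_of_nonneg_right hL1' hNpos.le
    · have h3 : ∀ d ∈ T'.erase (qi F q), ‖(σ d : ℂ) * (nc (qi F q) d * L d)‖ ≤
          N * (x ^ (1 / 8 : ℝ) * (∏ p ∈ Pd q d, (p : ℝ)) ^ (-(3 / 4) : ℝ) +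
            nm (qi F q) ^ (-(1 / 32) : ℝ)) := by
        intro d hd
        obtain ⟨hne, hdT⟩ := Finset.mem_erase.1 hd
        obtain ⟨hd1, hd2, hd3⟩ := hT' d hdT
        rw [norm_mul, norm_mul, Complex.norm_natCast]
        have e1 : ‖((σ d : ℤ) : ℂ)‖ ≤ 1 := by
          rw [Complex.norm_intCast]
          exact_mod_cast hd2
        calc ‖((σ d : ℤ) : ℂ)‖ * ((nc (qi F q) d : ℝ) * ‖L d‖) ≤
              1 * ((nc (qi F q) d : ℝ) * ‖L d‖) :=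
                mul_le_mul_of_nonneg_right e1 (by positivity)
          _ = (nc (qi F q) d : ℝ) * ‖L d‖ := one_mul _
          _ ≤ _ := hL2' d hd1 hne
      refine (norm_sum_le _ _).trans ((Finset.sum_le_sum h3).trans ?_)
      rw [← Finset.mul_sum]
      refine mul_le_mul_of_nonneg_left ?_ hNpos.le
      have hnm0 : 0 ≤ nm (qi F q) ^ (-(1 / 32) : ℝ) := by
        rw [hnm]; positivity
      refine (fmw_fib q n T' (fun d hd => (hT' d hd).2.2) (by rw [hn]; exact hR)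
        (fun R => x ^ (1 / 8 : ℝ) * (∏ p ∈ R, (p : ℝ)) ^ (-(3 / 4) : ℝ) +
            nm (qi F q) ^ (-(1 / 32) : ℝ)) (fun R => by positivity)).trans ?_
      have h4 := hSND x q.primeFactors hx3 hSp.low hSp.hi
      have h5 : ∑ R ∈ q.primeFactors.powerset.erase ∅, (2 : ℝ) ^ (n * R.card) *
          (x ^ (1 / 8 : ℝ) * (∏ p ∈ R, (p : ℝ)) ^ (-(3 / 4) : ℝ) +
            nm (qi F q) ^ (-(1 / 32) : ℝ)) =
          x ^ (1 / 8 : ℝ) * ∑ R ∈ q.primeFactors.powerset.erase ∅, (2 : ℝ) ^ (n * R.card) *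
            (∏ p ∈ R, (p : ℝ)) ^ (-(3 / 4) : ℝ) +
          (∑ R ∈ q.primeFactors.powerset.erase ∅, (2 : ℝ) ^ (n * R.card)) *
            nm (qi F q) ^ (-(1 / 32) : ℝ) := by
        rw [Finset.mul_sum, Finset.sum_mul, ← Finset.sum_add_distrib]
        exact Finset.sum_congr rfl fun R _ => by ring
      rw [h5]
      refine add_le_add ?_ ?_
      · calc _ ≤ x ^ (1 / 8 : ℝ) * x ^ (-(1 / 4) : ℝ) :=
              mul_le_mul_of_nonneg_left h4 (by positivity)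
          _ = x ^ (-(1 / 8) : ℝ) := by rw [← Real.rpow_add hx0]; norm_num
      · calc _ ≤ (1 + 2 ^ n) ^ q.primeFactors.card * nm (qi F q) ^ (-(1 / 32) : ℝ) :=
              mul_le_mul_of_nonneg_right (fmw_two n _) hnm0
          _ ≤ _ := fmw_num n _ x _ (by linarith) hk1 (by rw [hnm]; linarith)
              ((hy₃ x hz3).trans (min_le_right _ _))
  have h3 : ((nc (qi F q) (qi F q) : ℕ) : ℂ) = (N : ℂ) := by rw [hN]; push_cast; rfl
  rw [← hM, h3, ← hN]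
  have h2 : (∑ᶠ χ ∈ Pr F (qi F q), Zx χ (1 / 2 + γ + t * I) * pol M (cg F M γ t) χ.ψ) - N =
      ((∑ᶠ χ ∈ Pr F (qi F q), Zx χ (1 / 2 + γ + t * I) * pol M (cg F M γ t) χ.ψ) -
        ∑ᶠ χ ∈ Pr F (qi F q), A1w X (1 / 2 + γ + t * I) χ.ψ * pol M (cg F M γ t) χ.ψ) +
      ((∑ d ∈ T', (σ d : ℂ) * (nc (qi F q) d * L d)) - N) := by
    rw [hmain]
    ring
  rw [h2]
  refine (norm_add_le _ _).trans ((add_le_add hdiff hB).trans ?_)
  have e1 : N * (x ^ (-(1 / 8) : ℝ) + (1 + 2 ^ n) * x ^ (-(1 / 64) : ℝ)) ≤ N * (κ + κ) := by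
    refine mul_le_mul_of_nonneg_left (add_le_add ?_ ((hy₃ x hz3).trans (min_le_left _ _)))
      hNpos.le
    have := hy₂ x hz2
    rwa [one_mul] at this
  have e2 : κ * N + (κ * N + N * (κ + κ)) = η * N := by rw [hκ]; ring
  linarith

end Pool.Agent.H64.SM
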