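import Pool.Agent.H20.SM.Targets
import Pool.Agent.H92.RC.TWT

/-!
Row NCG: the congruence between the norms.
-/

set_option autoImplicit false

open NumberField NumberField.InfinitePlace Complex Filter Topology MeasureTheory

namespace Pool.Agent.H64.SM

open Pool.Agent.H28.RC Pool.Agent.H25.HK Pool.Agent.H37.CV Pool.Agent.H20.SM Pool.Agent.H92.RC

variable {K : Type} [Field K] [NumberField K]

/-- norms of congruent elements -/
lemma ncg_cong (q : ℕ) (a b : 𝓞 K) (h : a - b ∈ Ideal.span {(q : 𝓞 K)}) :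
    ((Algebra.norm ℤ a : ℤ) : ZMod q) = ((Algebra.norm ℤ b : ℤ) : ZMod q) := by
  obtain ⟨c, hc⟩ := Ideal.mem_span_singleton'.1 h
  have ha : a = b + (q : ℤ) • c := by
    rw [zsmul_eq_mul]
    push_cast
    linear_combination -hc
  rw [Algebra.norm_eq_matrix_det (RingOfIntegers.basis K) a,
    Algebra.norm_eq_matrix_det (RingOfIntegers.basis K) b]
  have h2 : ∀ {n : Type} [Fintype n] [DecidableEq n] (M : Matrix n n ℤ),
      (M.det : ZMod q) = Int.castRingHom (ZMod q) M.det := fun M => rfl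
  rw [h2, h2, RingHom.map_det, RingHom.map_det, ha, map_add, map_smul]
  have h4 : (Int.castRingHom (ZMod q)).mapMatrix
      ((q : ℤ) • Algebra.leftMulMatrix (RingOfIntegers.basis K) c) = 0 := by
    ext i j
    rw [RingHom.mapMatrix_apply, Matrix.map_apply, Matrix.smul_apply, smul_eq_mul, map_mul,
      map_natCast, ZMod.natCast_self, zero_mul]
    rfl
  rw [map_add, h4, add_zero]

lemma ncg_pos [IsTotallyComplex K] (a : 𝓞 K) (ha : a ≠ 0) : 0 < Algebra.norm ℤ a := by
  have h1 : 0 < Algebra.norm ℚ (a : K) :=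
    norm_pos_of_totpos _ (RingOfIntegers.coe_ne_zero_iff.2 ha)
      (fun v => absurd v.2 (not_isReal_iff_isComplex.2 (IsTotallyComplex.isComplex v.1)))
  rw [← Algebra.coe_norm_int] at h1
  exact_mod_cast h1

theorem pf_NCG (_hCRT : T_CRT) : T_NCG := by
  classical
  intro F _ _ _ _ q hq d hd p hp
  obtain ⟨hI0, hJ0, -, -, -, a, b, ha0, hb0, hac, hbc, hab, hIJ⟩ := hp
  have hna := ncg_pos a ha0
  have hnb := ncg_pos b hb0
  -- the norms
  have hN : Algebra.norm ℤ a * (Ideal.absNorm p.1 : ℤ) =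
      Algebra.norm ℤ b * (Ideal.absNorm p.2 : ℤ) := by
    have h1 := congrArg Ideal.absNorm hIJ
    rw [map_mul, map_mul, Ideal.absNorm_span_singleton, Ideal.absNorm_span_singleton] at h1
    have h2 : (((Algebra.norm ℤ a).natAbs : ℤ)) = Algebra.norm ℤ a :=
      Int.natAbs_of_nonneg hna.le
    have h3 : (((Algebra.norm ℤ b).natAbs : ℤ)) = Algebra.norm ℤ b :=
      Int.natAbs_of_nonneg hnb.le
    rw [← h2, ← h3]
    exact_mod_cast h1
  -- the divisibility by one prime
  have hp1 : ∀ l ∈ q.primeFactors \ Pd q d,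
      (l : ℤ) ∣ (Ideal.absNorm p.1 : ℤ) - Ideal.absNorm p.2 := by
    intro l hl
    obtain ⟨hl1, hl2⟩ := Finset.mem_sdiff.1 hl
    have hlp : l.Prime := Nat.prime_of_mem_primeFactors hl1
    have hlq : l ∣ q := Nat.dvd_of_mem_primeFactors hl1
    have hdl : d ≤ Ideal.span {(l : 𝓞 F)} := by
      by_contra h
      refine hl2 ?_
      unfold Pd
      simp only [Finset.mem_filter]
      exact ⟨hl1, h⟩
    have hql : qi F q ≤ Ideal.span {(l : 𝓞 F)} := by
      unfold qi
      rw [Ideal.span_singleton_le_span_singleton]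
      exact_mod_cast (Nat.cast_dvd_cast hlq : ((l : ℕ) : 𝓞 F) ∣ (q : 𝓞 F))
    have h1 := ncg_cong l a b (hdl hab)
    have hbl : Ideal.span {b} ⊔ Ideal.span {(l : 𝓞 F)} = ⊤ :=
      top_le_iff.1 (hbc ▸ sup_le_sup_left hql _)
    have hb1 : Ideal.span {b} ≠ (⊥ : Ideal (𝓞 F)) := fun h =>
      hb0 (Ideal.span_singleton_eq_bot.1 h)
    have h2 := absNorm_coprime l (Ideal.span {b}) hb1 hbl
    rw [Ideal.absNorm_span_singleton] at h2
    have h3 : ¬ (l : ℤ) ∣ Algebra.norm ℤ b := by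
      intro h
      have h4 : l ∣ (Algebra.norm ℤ b).natAbs := Int.natCast_dvd.1 h
      have h5 := Nat.dvd_gcd h4 (dvd_refl l)
      rw [h2] at h5
      exact hlp.one_lt.ne' (Nat.dvd_one.1 h5)
    have h4 : (l : ℤ) ∣ Algebra.norm ℤ a - Algebra.norm ℤ b := by
      rw [← ZMod.intCast_zmod_eq_zero_iff_dvd, Int.cast_sub, h1, sub_self]
    have h5 : (l : ℤ) ∣ Algebra.norm ℤ b *
        ((Ideal.absNorm p.1 : ℤ) - Ideal.absNorm p.2) := by
      have e : Algebra.norm ℤ b * ((Ideal.absNorm p.1 : ℤ) - Ideal.absNorm p.2) =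
          -((Algebra.norm ℤ a - Algebra.norm ℤ b) * (Ideal.absNorm p.1 : ℤ)) := by
        linear_combination hN
      rw [e]
      exact (h4.mul_right _).neg_right
    exact ((Nat.prime_iff_prime_int.1 hlp).dvd_or_dvd h5).resolve_left h3
  have hdvd : (qd q d : ℤ) ∣ (Ideal.absNorm p.1 : ℤ) - Ideal.absNorm p.2 := by
    rw [Int.natCast_dvd]
    unfold qd
    refine Finset.prod_primes_dvd _ (fun l hl => ?_) (fun l hl => ?_)
    · exact (Nat.prime_of_mem_primeFactors (Finset.mem_sdiff.1 hl).1).prime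
    · exact Int.natCast_dvd.1 (hp1 l hl)
  have hpos : ∀ I : Ideal (𝓞 F), I ≠ ⊥ → 1 ≤ Ideal.absNorm I := fun I hI =>
    Nat.one_le_iff_ne_zero.2 (Ideal.absNorm_eq_zero_iff.not.2 hI)
  have h1 := hpos p.1 hI0
  have h2 := hpos p.2 hJ0
  refine ⟨hdvd, ?_, ?_⟩
  · intro hlt
    have hlt' : Ideal.absNorm p.1 * Ideal.absNorm p.2 < qd q d := by
      unfold nm at hlt
      exact_mod_cast hlt
    by_contra hne
    have hne' : ((Ideal.absNorm p.1 : ℤ) - Ideal.absNorm p.2) ≠ 0 := by
      intro h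
      apply hne
      exact_mod_cast sub_eq_zero.1 h
    have h3 := Int.le_of_dvd (abs_pos.2 hne') ((dvd_abs _ _).2 hdvd)
    have h4 : |(Ideal.absNorm p.1 : ℤ) - Ideal.absNorm p.2| ≤
        (Ideal.absNorm p.1 : ℤ) * Ideal.absNorm p.2 := by
      have h1' : (1 : ℤ) ≤ Ideal.absNorm p.1 := by exact_mod_cast h1
      have h2' : (1 : ℤ) ≤ Ideal.absNorm p.2 := by exact_mod_cast h2
      rw [abs_le]
      constructor <;> nlinarith
    have h5 : (Ideal.absNorm p.1 : ℤ) * Ideal.absNorm p.2 < qd q d := by exact_mod_cast hlt'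
    linarith
  · intro hJ
    rw [hJ, Ideal.absNorm_top] at hdvd
    by_cases hI : p.1 = ⊤
    · exact Or.inl hI
    · right
      have h3 : Ideal.absNorm p.1 ≠ 1 := fun h => hI (Ideal.absNorm_eq_one_iff.1 h)
      have h4 : (0 : ℤ) < (Ideal.absNorm p.1 : ℤ) - ((1 : ℕ) : ℤ) := by
        have : 2 ≤ Ideal.absNorm p.1 := by omega
        have : (2 : ℤ) ≤ Ideal.absNorm p.1 := by exact_mod_cast this
        push_cast
        linarith
      have h5 := Int.le_of_dvd h4 hdvd
      have h6 : qd q d < Ideal.absNorm p.1 := by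
        have : (qd q d : ℤ) < Ideal.absNorm p.1 := by push_cast at h5; linarith
        exact_mod_cast this
      unfold nm
      exact_mod_cast h6

end Pool.Agent.H64.SM
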